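import Pool.Agent.N352.PJ.Loc

set_option autoImplicit false
set_option linter.all false

open Polynomial
open scoped Classical

namespace Pool.Agent.N434.PJ

/-- Additivity of the intersection multiplicity. -/
theorem length_mul {S : Type} [CommRing S] (I : Ideal S) (x y : S)
    (hy : ∀ s, y * s ∈ I → s ∈ I) :
    Module.length S (S ⧸ (I ⊔ Ideal.span {x * y})) =
      Module.length S (S ⧸ (I ⊔ Ideal.span {x})) + Module.length S (S ⧸ (I ⊔ Ideal.span {y})) := by
  have h1 : (I ⊔ Ideal.span {x} : Ideal S) ≤
      Submodule.comap (LinearMap.mulLeft S y) (I ⊔ Ideal.span {x * y} : Ideal S) := by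
    rw [sup_le_iff]
    constructor
    · intro s hs
      exact Ideal.mem_sup_left (I.mul_mem_left y hs)
    · rw [Ideal.span_le, Set.singleton_subset_iff]
      change y * x ∈ (I ⊔ Ideal.span {x * y} : Ideal S)
      apply Ideal.mem_sup_right
      rw [Ideal.mem_span_singleton]
      exact ⟨1, by ring⟩
  have h2 : (I ⊔ Ideal.span {x * y} : Ideal S) ≤ (I ⊔ Ideal.span {y} : Ideal S) := by
    refine sup_le_sup_left ?_ I
    rw [Ideal.span_singleton_le_span_singleton]
    exact Dvd.intro_left x rfl
  let f : S ⧸ (I ⊔ Ideal.span {x} : Ideal S) →ₗ[S] S ⧸ (I ⊔ Ideal.span {x * y} : Ideal S) :=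
    Submodule.mapQ _ _ (LinearMap.mulLeft S y) h1
  let g : S ⧸ (I ⊔ Ideal.span {x * y} : Ideal S) →ₗ[S] S ⧸ (I ⊔ Ideal.span {y} : Ideal S) :=
    Submodule.factor h2
  have hf : Function.Injective f := by
    rw [injective_iff_map_eq_zero]
    intro q
    obtain ⟨s, rfl⟩ := Submodule.Quotient.mk_surjective _ q
    intro h
    rw [Submodule.mapQ_apply, Submodule.Quotient.mk_eq_zero, LinearMap.mulLeft_apply,
      Submodule.mem_sup] at h
    obtain ⟨i, hi, z, hz, hiz⟩ := h
    obtain ⟨t, rfl⟩ := Ideal.mem_span_singleton.1 hz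
    rw [Submodule.Quotient.mk_eq_zero]
    have : s - x * t ∈ I := by
      apply hy
      have : y * (s - x * t) = i := by rw [mul_sub, ← hiz]; ring
      rwa [this]
    rw [Submodule.mem_sup]
    exact ⟨_, this, x * t, Ideal.mem_span_singleton.2 ⟨t, rfl⟩, by ring⟩
  have hg : Function.Surjective g := Submodule.factor_surjective h2
  have hfg : Function.Exact f g := by
    intro q
    obtain ⟨s, rfl⟩ := Submodule.Quotient.mk_surjective _ q
    constructor
    · intro h
      have h' : s ∈ (I ⊔ Ideal.span {y} : Ideal S) := by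
        rw [← Submodule.Quotient.mk_eq_zero]
        exact h
      rw [Submodule.mem_sup] at h'
      obtain ⟨i, hi, z, hz, hiz⟩ := h'
      obtain ⟨t, rfl⟩ := Ideal.mem_span_singleton.1 hz
      refine ⟨Submodule.Quotient.mk t, ?_⟩
      rw [Submodule.mapQ_apply, LinearMap.mulLeft_apply, Submodule.Quotient.eq]
      have : y * t - s = -i := by rw [← hiz]; ring
      rw [this]
      exact Ideal.mem_sup_left (I.neg_mem hi)
    · rintro ⟨q, hq⟩
      obtain ⟨t, rfl⟩ := Submodule.Quotient.mk_surjective _ q
      rw [← hq]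
      change Submodule.Quotient.mk (y * t) = 0
      rw [Submodule.Quotient.mk_eq_zero]
      exact Ideal.mem_sup_right (Ideal.mem_span_singleton.2 ⟨t, rfl⟩)
  exact Module.length_eq_add_of_exact f g hf hg hfg

theorem length_pow {S : Type} [CommRing S] (I : Ideal S) (x : S)
    (hx : ∀ s, x * s ∈ I → s ∈ I) (n : ℕ) :
    Module.length S (S ⧸ (I ⊔ Ideal.span {x ^ n})) =
      n * Module.length S (S ⧸ (I ⊔ Ideal.span {x})) := by
  induction n with
  | zero =>
    rw [Nat.cast_zero, zero_mul, Module.length_eq_zero_iff]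
    simp [Ideal.span_singleton_one, Submodule.Quotient.subsingleton_iff]
  | succ n ih =>
    rw [pow_succ, length_mul I _ x hx, ih]
    push_cast
    ring

/-- A multiset all of whose multiplicities are even. -/
theorem multiset_even {α : Type} [DecidableEq α] (s : Multiset α) (hs : ∀ a ∈ s, Even (s.count a)) :
    ∃ t, s = t + t := by
  induction h : s.card using Nat.strong_induction_on generalizing s with
  | _ n ih =>
    rcases s.empty_or_exists_mem with h0 | ⟨a, ha⟩
    · exact ⟨0, by simp [h0]⟩
    · have h1 := hs a ha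
      have h2 : 1 ≤ s.count a := Multiset.one_le_count_iff_mem.2 ha
      have h3 : 2 ≤ s.count a := by
        obtain ⟨r, hr⟩ := h1
        omega
      obtain ⟨s', hs'⟩ : ∃ s', s = a ::ₘ a ::ₘ s' := by
        obtain ⟨s1, h1⟩ := Multiset.exists_cons_of_mem ha
        have : a ∈ s1 := by
          rw [h1, Multiset.count_cons_self] at h3
          exact Multiset.one_le_count_iff_mem.1 (by omega)
        obtain ⟨s2, h2⟩ := Multiset.exists_cons_of_mem this
        exact ⟨s2, by rw [h1, h2]⟩
      obtain ⟨t, ht⟩ := ih s'.card (by rw [← h, hs']; simp) s' (by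
        intro b hb
        have := hs b (by rw [hs']; simp [hb])
        rw [hs'] at this
        by_cases hab : b = a
        · subst hab
          rw [Multiset.count_cons_self, Multiset.count_cons_self] at this
          obtain ⟨r, hr⟩ := this
          exact ⟨r - 1, by omega⟩
        · rw [Multiset.count_cons_of_ne hab, Multiset.count_cons_of_ne hab] at this
          exact this) rfl
      exact ⟨a ::ₘ t, by rw [hs', ht]; simp⟩

theorem sup_congr {S : Type} [CommRing S] (x y z : S) (h : x ∣ y - z) :
    Ideal.span {x} ⊔ Ideal.span {y} = Ideal.span {x} ⊔ Ideal.span {z} := by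
  obtain ⟨t, ht⟩ := h
  apply le_antisymm
  · rw [sup_le_iff]
    refine ⟨le_sup_left, ?_⟩
    rw [Ideal.span_le, Set.singleton_subset_iff, SetLike.mem_coe, Submodule.mem_sup]
    exact ⟨x * t, Ideal.mem_span_singleton.2 ⟨t, rfl⟩, z, Ideal.mem_span_singleton_self z, by
      rw [← ht]; ring⟩
  · rw [sup_le_iff]
    refine ⟨le_sup_left, ?_⟩
    rw [Ideal.span_le, Set.singleton_subset_iff, SetLike.mem_coe, Submodule.mem_sup]
    exact ⟨x * (-t), Ideal.mem_span_singleton.2 ⟨-t, rfl⟩, y, Ideal.mem_span_singleton_self y, by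
      rw [mul_neg, ← ht]; ring⟩

/-- The multiplicity of an irreducible factor is even. -/
theorem even_mult (A : Type) [CommRing A] [IsDomain A] [IsDiscreteValuationRing A]
    (π : A) (u f a : A[X]) (m : ℕ) (hπ : Irreducible π) (hu : u.Monic) (hm : Odd m)
    (hco : IsCoprime (u.map (IsLocalRing.residue A)) (f.map (IsLocalRing.residue A)))
    (hdvd : u ∣ a ^ 2 - C (π ^ m) * f) (φ w : (IsLocalRing.ResidueField A)[X]) (e : ℕ)
    (hφ : Irreducible φ) (hw : ¬ φ ∣ w) (he : 1 ≤ e)
    (huw : u.map (IsLocalRing.residue A) = φ ^ e * w) : Even e := by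
  classical
  let ρ : A[X] →+* (IsLocalRing.ResidueField A)[X] := mapRingHom (IsLocalRing.residue A)
  have hρs : Function.Surjective ρ := Polynomial.map_surjective _ IsLocalRing.residue_surjective
  have hρ : ∀ g, ρ g = g.map (IsLocalRing.residue A) := fun g => rfl
  have hker : RingHom.ker ρ = Ideal.span {C π} := by
    rw [Polynomial.ker_mapRingHom, IsLocalRing.ker_residue, hπ.maximalIdeal_eq, Ideal.map_span,
      Set.image_singleton]
  have hCπ : Prime (C π : A[X]) := Polynomial.prime_C_iff.2 hπ.prime
  have hkd : ∀ g : A[X], C π ∣ g ↔ ρ g = 0 := by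
    intro g
    rw [← RingHom.mem_ker, hker, Ideal.mem_span_singleton]
  obtain ⟨F, hF⟩ := hρs φ
  obtain ⟨W, hW⟩ := hρs w
  haveI hprime : (Ideal.span {φ}).IsPrime :=
    (Ideal.span_singleton_prime hφ.ne_zero).2 hφ.prime
  let P : Ideal A[X] := Ideal.comap ρ (Ideal.span {φ})
  haveI : P.IsPrime := Ideal.comap_isPrime ρ _
  let S := Localization.AtPrime P
  let α : A[X] →+* S := algebraMap A[X] S
  have hPm : ∀ g, g ∈ P ↔ φ ∣ ρ g := by
    intro g
    rw [Ideal.mem_comap, Ideal.mem_span_singleton]
  have hU : ∀ g, ¬ φ ∣ ρ g → IsUnit (α g) := by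
    intro g hg
    exact IsLocalization.map_units S (⟨g, fun h => hg ((hPm g).1 h)⟩ : P.primeCompl)
  have hinj : Function.Injective α := IsLocalization.injective S P.primeCompl_le_nonZeroDivisors
  -- regular sequences
  have hN : ∀ x y : A[X], (∀ s t, y * s = x * t → x ∣ s) →
      ∀ s : S, α y * s ∈ Ideal.span {α x} → s ∈ Ideal.span {α x} := by
    intro x y h s hs
    obtain ⟨t, ht⟩ := Ideal.mem_span_singleton.1 hs
    obtain ⟨⟨s₁, d⟩, h1⟩ := IsLocalization.surj P.primeCompl s
    obtain ⟨⟨t₁, d'⟩, h2⟩ := IsLocalization.surj P.primeCompl t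
    have h3 : y * (s₁ * d') = x * (t₁ * d) := by
      apply hinj
      rw [map_mul, map_mul, map_mul, map_mul]
      change s * α d = α s₁ at h1
      change t * α d' = α t₁ at h2
      rw [← h1, ← h2]
      calc α y * (s * α d * α d') = (α y * s) * (α d * α d') := by ring
        _ = _ := by rw [ht]; ring
    obtain ⟨r, hr⟩ := h _ _ h3
    have hd : IsUnit (α d) := IsLocalization.map_units S d
    have hd' : IsUnit (α d') := IsLocalization.map_units S d'
    change s * α d = α s₁ at h1
    have h4 : s * (α d * α d') = α x * α r := by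
      rw [← mul_assoc, h1, ← map_mul, hr, map_mul]
    obtain ⟨v, hv⟩ := (hd.mul hd').exists_right_inv
    rw [Ideal.mem_span_singleton]
    refine ⟨α r * v, ?_⟩
    calc s = s * (α d * α d' * v) := by rw [hv, mul_one]
      _ = s * (α d * α d') * v := by ring
      _ = _ := by rw [h4]; ring
  -- `π` is regular modulo `u`
  have hρu : ρ u ≠ 0 := (hu.map (IsLocalRing.residue A)).ne_zero
  have hN1 := hN u (C π) (by
    intro s t hst
    have : C π ∣ u * t := ⟨s, hst.symm⟩
    rcases hCπ.dvd_or_dvd this with h | h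
    · exact absurd ((hkd u).1 h) hρu
    · obtain ⟨r, rfl⟩ := h
      refine ⟨r, ?_⟩
      apply mul_left_cancel₀ hCπ.ne_zero
      rw [hst]; ring)
  -- `F` is regular modulo `π`
  have hN2 := hN (C π) F (by
    intro s t hst
    have : C π ∣ F * s := ⟨t, hst⟩
    rcases hCπ.dvd_or_dvd this with h | h
    · exact absurd ((hkd F).1 h) (by rw [hF]; exact hφ.ne_zero)
    · exact h)
  -- the maximal ideal
  have hmax : Ideal.span {α (C π)} ⊔ Ideal.span {α F} = IsLocalRing.maximalIdeal S := by
    rw [← Localization.AtPrime.map_eq_maximalIdeal]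
    have hP : P = Ideal.span {F} ⊔ Ideal.span {C π} := by
      have h1 : Ideal.span {φ} = Ideal.map ρ (Ideal.span {F}) := by
        rw [Ideal.map_span, Set.image_singleton, hF]
      change Ideal.comap ρ (Ideal.span {φ}) = _
      rw [h1, Ideal.comap_map_of_surjective ρ hρs]
      congr 1
    refine ((congrArg (Ideal.map α) hP).trans ?_).symm
    rw [Ideal.map_sup, Ideal.map_span, Ideal.map_span, Set.image_singleton,
      Set.image_singleton, sup_comm]
  -- `f` and `W` are units
  have hfU : IsUnit (α f) := by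
    apply hU
    intro h
    have h1 : φ ∣ u.map (IsLocalRing.residue A) := by
      rw [huw]
      exact Dvd.dvd.mul_right (dvd_pow_self φ (by omega)) w
    exact hφ.not_isUnit (hco.isUnit_of_dvd' h1 h)
  have hWU : IsUnit (α W) := by
    apply hU
    rw [hW]
    exact hw
  -- `i(π, F) = 1`
  have i1 : Module.length S (S ⧸ (Ideal.span {α (C π)} ⊔ Ideal.span {α F})) = 1 := by
    rw [hmax, Module.length_eq_one_iff, isSimpleModule_iff_isCoatom]
    exact (IsLocalRing.maximalIdeal.isMaximal S).out
  -- `i(π, u) = e`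
  have i2 : Module.length S (S ⧸ (Ideal.span {α (C π)} ⊔ Ideal.span {α u})) = e := by
    have h1 : Ideal.span {α (C π)} ⊔ Ideal.span {α u} =
        Ideal.span {α (C π)} ⊔ Ideal.span {α F ^ e * α W} := by
      apply sup_congr
      have : C π ∣ u - F ^ e * W := by
        rw [hkd, map_sub, map_mul, map_pow, hF, hW, hρ, huw, sub_self]
      have := map_dvd α this
      rwa [map_sub, map_mul, map_pow] at this
    rw [h1, Ideal.span_singleton_mul_right_unit hWU, length_pow _ _ hN2, i1, mul_one]
  -- `i(u, π^m f) = m e`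
  have i3 : Module.length S (S ⧸ (Ideal.span {α u} ⊔ Ideal.span {α (C π) ^ m * α f})) = m * e := by
    rw [Ideal.span_singleton_mul_right_unit hfU, length_pow _ _ hN1, sup_comm, i2]
  -- `a` is regular modulo `u`
  have hdv : α u ∣ (α a) ^ 2 - α (C π) ^ m * α f := by
    have := map_dvd α hdvd
    rwa [map_sub, map_mul, map_pow, C_pow, map_pow] at this
  have hN3 : ∀ s : S, α a * s ∈ Ideal.span {α u} → s ∈ Ideal.span {α u} := by
    intro s hs
    have h1 : (α a) ^ 2 * s ∈ Ideal.span {α u} := by
      rw [pow_two, mul_assoc]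
      exact Ideal.mul_mem_left _ _ hs
    have h2 : α (C π) ^ m * (α f * s) ∈ Ideal.span {α u} := by
      have h3 : ((α a) ^ 2 - α (C π) ^ m * α f) * s ∈ Ideal.span {α u} :=
        Ideal.mul_mem_right _ _ (Ideal.mem_span_singleton.2 hdv)
      have h4 := Ideal.sub_mem _ h1 h3
      have h5 : (α a) ^ 2 * s - ((α a) ^ 2 - α (C π) ^ m * α f) * s = α (C π) ^ m * (α f * s) := by
        ring
      rwa [h5] at h4
    have h3 : ∀ n : ℕ, ∀ z, α (C π) ^ n * z ∈ Ideal.span {α u} → z ∈ Ideal.span {α u} := by
      intro n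
      induction n with
      | zero => intro z hz; simpa using hz
      | succ n ih =>
        intro z hz
        apply ih
        apply hN1
        rw [pow_succ] at hz
        convert hz using 1
        ring
    have h4 := h3 m _ h2
    exact (Ideal.unit_mul_mem_iff_mem _ hfU).1 h4
  have i4 := length_pow (Ideal.span {α u}) (α a) hN3 2
  rw [sup_congr _ _ _ hdv, i3] at i4
  set y := Module.length S (S ⧸ (Ideal.span {α u} ⊔ Ideal.span {α a})) with hy
  have hyt : y ≠ ⊤ := by
    intro h
    rw [h] at i4
    have : ((m : ℕ∞) * (e : ℕ∞)) ≠ ⊤ := by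
      exact_mod_cast ENat.coe_ne_top (m * e)
    apply this
    rw [i4]
    rfl
  obtain ⟨n, hn⟩ := ENat.ne_top_iff_exists.1 hyt
  rw [← hn] at i4
  have h5 : m * e = 2 * n := by exact_mod_cast i4
  have h6 : Even (m * e) := ⟨n, by omega⟩
  rw [Nat.even_mul] at h6
  rcases h6 with h | h
  · exact absurd h (Nat.not_even_iff_odd.2 hm)
  · exact h

theorem b1 : Pool.Agent.N352.PJ.S_B1 := by
  intro A _ _ _ π u f a m hπ hu hm hco hdvd
  classical
  set p := u.map (IsLocalRing.residue A) with hp
  have hpm : p.Monic := hu.map _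
  have hev : ∀ φ ∈ UniqueFactorizationMonoid.normalizedFactors p,
      Even ((UniqueFactorizationMonoid.normalizedFactors p).count φ) := by
    intro φ hφ
    have hφi := UniqueFactorizationMonoid.irreducible_of_normalized_factor φ hφ
    have hφn : normalize φ = φ := UniqueFactorizationMonoid.normalize_normalized_factor φ hφ
    have hfin : FiniteMultiplicity φ p := FiniteMultiplicity.of_prime_left hφi.prime hpm.ne_zero
    obtain ⟨w, h1, h2⟩ := hfin.exists_eq_pow_mul_and_not_dvd
    have h3 := UniqueFactorizationMonoid.emultiplicity_eq_count_normalizedFactors hφi hpm.ne_zero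
    rw [hφn, hfin.emultiplicity_eq_multiplicity] at h3
    have h4 : multiplicity φ p = (UniqueFactorizationMonoid.normalizedFactors p).count φ := by
      exact_mod_cast h3
    rw [← h4]
    refine even_mult A π u f a m hπ hu hm hco hdvd φ w _ hφi h2 ?_ h1
    rw [h4]
    exact Multiset.one_le_count_iff_mem.2 hφ
  obtain ⟨t, ht⟩ := multiset_even _ hev
  have hprod : (UniqueFactorizationMonoid.normalizedFactors p).prod = p := by
    have h1 := UniqueFactorizationMonoid.prod_normalizedFactors hpm.ne_zero
    have h2 := UniqueFactorizationMonoid.prod_normalizedFactors_eq hpm.ne_zero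
    rw [h2]
    exact hpm.normalize_eq_self
  refine ⟨t.prod, ?_, ?_⟩
  · refine Multiset.prod_induction Monic t (fun a b ha hb => ha.mul hb) monic_one fun φ hφ => ?_
    have h1 : φ ∈ UniqueFactorizationMonoid.normalizedFactors p := by rw [ht]; simp [hφ]
    have h2 := UniqueFactorizationMonoid.irreducible_of_normalized_factor φ h1
    have h3 := UniqueFactorizationMonoid.normalize_normalized_factor φ h1
    exact (Polynomial.normalize_eq_self_iff_monic h2.ne_zero).1 h3
  · rw [← hprod, ht, Multiset.prod_add, pow_two]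

end Pool.Agent.N434.PJ
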