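import Pool.Agent.N352.PJ.Lat

set_option autoImplicit false
set_option linter.all false

open Polynomial Matrix
open scoped Classical

namespace Pool.Agent.N434.PJ

open Module Pool.Agent.N352.PJ

theorem gap : S_GAP := by
  intro g K _ B hB hirr i j hij
  by_contra hcon
  push Not at hcon
  set M : Mt g K := Jm g K * B with hM
  have hMa : ∀ a c, M a c = B (Fin.rev a) c := by
    intro a c
    rw [hM, Matrix.mul_apply]
    simp [Jm]
  have h0 : ∀ a : Fin (2 * g + 1), ¬ (a ≤ j) → ∀ c : Fin (2 * g + 1), c ≤ j → M a c = 0 := by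
    intro a ha c hc
    rw [hMa]
    refine hcon _ ?_ c hc
    rw [Fin.le_def, Fin.val_rev]
    rw [Fin.le_def] at ha
    have := a.2
    omega
  have hdet := Matrix.twoBlockTriangular_det (charmatrix M) (fun a => a ≤ j) (by
    intro a ha c hc
    have hne : a ≠ c := by rintro rfl; exact ha hc
    rw [charmatrix_apply_ne _ _ _ hne, h0 a ha c hc]
    simp)
  have e1 : toSquareBlockProp (charmatrix M) (fun a => a ≤ j) =
      charmatrix (toSquareBlockProp M (fun a => a ≤ j)) := by
    ext1 a c
    simp [toSquareBlockProp_def, charmatrix_apply, Matrix.diagonal_apply, Subtype.ext_iff]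
  have e2 : toSquareBlockProp (charmatrix M) (fun a => ¬ a ≤ j) =
      charmatrix (toSquareBlockProp M (fun a => ¬ a ≤ j)) := by
    ext1 a c
    simp [toSquareBlockProp_def, charmatrix_apply, Matrix.diagonal_apply, Subtype.ext_iff]
  rw [e1, e2] at hdet
  have hchp : chp B = (toSquareBlockProp M (fun a => a ≤ j)).charpoly *
      (toSquareBlockProp M (fun a => ¬ a ≤ j)).charpoly := hdet
  rw [hchp] at hirr
  rcases hirr.isUnit_or_isUnit rfl with hu | hu
  · have h1 := (charpoly_monic _).eq_one_of_isUnit hu
    have h2 := congrArg natDegree h1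
    rw [charpoly_natDegree_eq_dim, natDegree_one, Fintype.card_eq_zero_iff] at h2
    exact h2.elim ⟨j, le_refl _⟩
  · have h1 := (charpoly_monic _).eq_one_of_isUnit hu
    have h2 := congrArg natDegree h1
    rw [charpoly_natDegree_eq_dim, natDegree_one, Fintype.card_eq_zero_iff] at h2
    refine h2.elim ⟨Fin.last (2 * g), ?_⟩
    rw [Fin.le_def, Fin.val_last]
    omega

/-- Convexity of dimensions. -/
theorem conv {K V : Type} [Field K] [AddCommGroup V] [Module K V] [FiniteDimensional K V]
    (T : V →ₗ[K] V) (hT : Function.Injective T) (A C : Submodule K V) (h1 : A ≤ C)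
    (h2 : A.map T ≤ C) : 2 * finrank K A ≤ finrank K (A ⊓ A.comap T : Submodule K V) + finrank K C := by
  have e : (A ⊓ A.comap T).map T = A.map T ⊓ A := by
    ext x
    constructor
    · rintro ⟨y, ⟨hy1, hy2⟩, rfl⟩
      exact ⟨⟨y, hy1, rfl⟩, hy2⟩
    · rintro ⟨⟨y, hy1, rfl⟩, hy2⟩
      exact ⟨y, ⟨hy1, hy2⟩, rfl⟩
  have f1 : finrank K ((A ⊓ A.comap T).map T) = finrank K (A ⊓ A.comap T : Submodule K V) :=
    (Submodule.equivMapOfInjective T hT _).finrank_eq.symm
  have f2 : finrank K (A.map T) = finrank K A :=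
    (Submodule.equivMapOfInjective T hT _).finrank_eq.symm
  have f3 := Submodule.finrank_sup_add_finrank_inf_eq (A.map T) A
  have f4 : finrank K (A.map T ⊔ A : Submodule K V) ≤ finrank K C :=
    Submodule.finrank_mono (sup_le h2 h1)
  rw [e] at f1
  omega

/-- The sequence of subspaces `{x : x, T x, …, T ^ n x ∈ U}`. -/
def seqU {K V : Type} [Field K] [AddCommGroup V] [Module K V] (T : V →ₗ[K] V)
    (U : Submodule K V) : ℕ → Submodule K V
  | 0 => U
  | n + 1 => seqU T U n ⊓ (seqU T U n).comap T

theorem seqU_mem {K V : Type} [Field K] [AddCommGroup V] [Module K V] (T : V →ₗ[K] V)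
    (U : Submodule K V) (n : ℕ) : ∀ x ∈ seqU T U n, ∀ i ≤ n, (T ^ i) x ∈ U := by
  induction n with
  | zero =>
    intro x hx i hi
    obtain rfl : i = 0 := by omega
    change x ∈ U at hx
    simpa using hx
  | succ n ih =>
    intro x hx i hi
    rcases Nat.lt_or_ge n i with h | h
    · obtain rfl : i = n + 1 := by omega
      have := ih (T x) hx.2 n le_rfl
      rw [pow_succ, Module.End.mul_apply]
      exact this
    · exact ih x hx.1 i h

theorem seqU_dim {K V : Type} [Field K] [AddCommGroup V] [Module K V] [FiniteDimensional K V]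
    (T : V →ₗ[K] V) (hT : Function.Injective T) (U C : Submodule K V) (h1 : U ≤ C)
    (h2 : U.map T ≤ C) (h3 : finrank K C ≤ finrank K U + 1) (n : ℕ) :
    finrank K (seqU T U n) ≤ finrank K (seqU T U (n + 1)) + 1 := by
  induction n with
  | zero =>
    have := conv T hT U C h1 h2
    change finrank K U ≤ finrank K (U ⊓ U.comap T : Submodule K V) + 1
    omega
  | succ n ih =>
    have h4 : seqU T U (n + 1) ≤ seqU T U n := inf_le_left
    have h5 : (seqU T U (n + 1)).map T ≤ seqU T U n := by
      rw [Submodule.map_le_iff_le_comap]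
      exact inf_le_right
    have := conv T hT _ _ h4 h5
    change finrank K (seqU T U (n + 1)) ≤
      finrank K (seqU T U (n + 1) ⊓ (seqU T U (n + 1)).comap T : Submodule K V) + 1
    omega

theorem seqU_dim' {K V : Type} [Field K] [AddCommGroup V] [Module K V] [FiniteDimensional K V]
    (T : V →ₗ[K] V) (hT : Function.Injective T) (U C : Submodule K V) (h1 : U ≤ C)
    (h2 : U.map T ≤ C) (h3 : finrank K C ≤ finrank K U + 1) (n : ℕ) :
    finrank K U ≤ finrank K (seqU T U n) + n := by
  induction n with
  | zero => exact le_rfl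
  | succ n ih =>
    have := seqU_dim T hT U C h1 h2 h3 n
    omega

theorem sq : S_SQ := by
  intro g k K L _ _ _ _ _ _ _ _ f θ hg h α e hα he hJ hT hN
  haveI : FiniteDimensional K L := Module.finite_of_finrank_pos (by rw [h.rank]; omega)
  let E : Basis (Fin (2 * g + 1)) K L := basisOfLinearIndependentOfCardEqFinrank he
    (by rw [h.rank, Fintype.card_fin])
  have hE : ∀ i, E i = e i := fun i => by
    simp only [E, coe_basisOfLinearIndependentOfCardEqFinrank]
  have hθ : θ ≠ 0 := by
    have := h.basis.ne_zero ⟨1, by omega⟩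
    rw [h.basis_apply] at this
    simpa using this
  -- coordinates
  have hrepr : ∀ x a, E.repr x a = h.top (x * e (Fin.rev a) / α) := by
    intro x a
    conv_rhs => rw [← E.sum_repr x, Finset.sum_mul, Finset.sum_div, map_sum]
    have : ∀ b, h.top ((E.repr x) b • E b * e (Fin.rev a) / α) =
        E.repr x b * (if a = b then 1 else 0) := by
      intro b
      rw [hE, smul_mul_assoc, smul_div_assoc, map_smul, smul_eq_mul, hJ]
      congr 1
      simp [Jm, Fin.rev_inj]
    rw [Finset.sum_congr rfl fun b _ => this b]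
    simp
  let U : Submodule K L := Submodule.span K (Set.range fun i : Fin g => e (Fin.castLE (by omega) i))
  let C : Submodule K L := Submodule.span K (Set.range fun i : Fin (g + 1) => e (Fin.castLE (by omega) i))
  have hUd : finrank K U = g := by
    have := finrank_span_eq_card (R := K) (b := fun i : Fin g => e (Fin.castLE (by omega) i))
      (he.comp _ (Fin.castLE_injective (by omega)))
    simpa using this
  have hCd : finrank K C = g + 1 := by
    have := finrank_span_eq_card (R := K) (b := fun i : Fin (g + 1) => e (Fin.castLE (by omega) i))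
      (he.comp _ (Fin.castLE_injective (by omega)))
    simpa using this
  have heU : ∀ i : Fin (2 * g + 1), (i : ℕ) < g → e i ∈ U := fun i hi =>
    Submodule.subset_span ⟨⟨i, hi⟩, rfl⟩
  have heC : ∀ i : Fin (2 * g + 1), (i : ℕ) < g + 1 → e i ∈ C := fun i hi =>
    Submodule.subset_span ⟨⟨i, hi⟩, rfl⟩
  have hUC : U ≤ C := by
    rw [Submodule.span_le]
    rintro _ ⟨i, rfl⟩
    exact heC _ (by simp)
  let T : L →ₗ[K] L := LinearMap.mulLeft K θ
  have hTU : U.map T ≤ C := by
    rw [Submodule.map_le_iff_le_comap, Submodule.span_le]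
    rintro _ ⟨i, rfl⟩
    simp only [SetLike.mem_coe, Submodule.mem_comap]
    change θ * e (Fin.castLE _ i) ∈ C
    rw [← E.sum_repr (θ * e (Fin.castLE _ i))]
    refine Submodule.sum_mem _ fun a _ => ?_
    by_cases ha : (a : ℕ) < g + 1
    · exact Submodule.smul_mem _ _ (by rw [hE]; exact heC a ha)
    · rw [hrepr, mul_assoc, hT]
      · simp
      · simp
      · rw [Fin.val_rev]; have := a.2; omega
  have hTi : Function.Injective T := by
    intro x y hxy
    exact mul_left_cancel₀ hθ hxy
  have hdim := seqU_dim' T hTi U C hUC hTU (by omega) (g - 1)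
  have hpos : 0 < finrank K (seqU T U (g - 1)) := by omega
  obtain ⟨v, hv, hv0⟩ : ∃ v ∈ seqU T U (g - 1), v ≠ 0 := by
    rw [finrank_pos_iff_exists_ne_zero] at hpos
    obtain ⟨⟨v, hv⟩, hv0⟩ := hpos
    exact ⟨v, hv, fun h => hv0 (by simpa using h)⟩
  have hTp : ∀ i x, (T ^ i) x = θ ^ i * x := by
    intro i
    induction i with
    | zero => intro x; simp
    | succ i ih => intro x; rw [pow_succ, Module.End.mul_apply, ih]; simp [T]; ring
  have hvU : ∀ i ≤ g - 1, θ ^ i * v ∈ U := by
    intro i hi
    rw [← hTp]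
    exact seqU_mem T U (g - 1) v hv i hi
  -- orthogonality
  have hbil : ∀ z : L, (∀ i j : Fin (2 * g + 1), (i : ℕ) < g → (j : ℕ) < g →
      h.top (z * (e i * e j)) = 0) → ∀ x ∈ U, ∀ y ∈ U, h.top (z * (x * y)) = 0 := by
    intro z hz x hx y hy
    have h1 : ∀ j : Fin (2 * g + 1), (j : ℕ) < g → ∀ x ∈ U, h.top (z * (x * e j)) = 0 := by
      intro j hj x hx
      have : U ≤ LinearMap.ker (h.top ∘ₗ (LinearMap.mulLeft K z) ∘ₗ (LinearMap.mulRight K (e j))) := by
        rw [Submodule.span_le]
        rintro _ ⟨i, rfl⟩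
        exact hz _ _ (by simp) hj
      exact this hx
    have : U ≤ LinearMap.ker (h.top ∘ₗ (LinearMap.mulLeft K z) ∘ₗ (LinearMap.mulLeft K x)) := by
      rw [Submodule.span_le]
      rintro _ ⟨i, rfl⟩
      exact h1 _ (by simp) x hx
    exact this hy
  have hb0 := hbil (1 / α) (by
    intro i j hi hj
    have := hJ i j
    rw [show 1 / α * (e i * e j) = e i * e j / α by ring, this]
    simp only [Jm, Matrix.of_apply]
    rw [if_neg]
    intro hh
    rw [hh, Fin.val_rev] at hj
    omega)
  have hb1 := hbil (θ / α) (by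
    intro i j hi hj
    rw [show θ / α * (e i * e j) = θ * (e i * e j) / α by ring]
    exact hT i j hi hj)
  set c : L := v ^ 2 / α with hc
  have htop : ∀ m : ℕ, m ≤ 2 * g - 1 → h.top (θ ^ m * c) = 0 := by
    intro m hm
    rcases Nat.lt_or_ge (2 * (g - 1)) m with hlt | hge
    · obtain rfl : m = 2 * (g - 1) + 1 := by omega
      have := hb1 _ (hvU (g - 1) le_rfl) _ (hvU (g - 1) le_rfl)
      rw [← this]
      congr 1
      rw [hc]; ring
    · obtain ⟨a, b, ha, hb, rfl⟩ : ∃ a b, a ≤ g - 1 ∧ b ≤ g - 1 ∧ m = a + b :=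
        ⟨min m (g - 1), m - min m (g - 1), by omega, by omega, by omega⟩
      have := hb0 _ (hvU a ha) _ (hvU b hb)
      rw [← this]
      congr 1
      rw [hc]; ring
  have hcoef : ∀ n : ℕ, ∀ i : Fin (2 * g + 1), (i : ℕ) + n = 2 * g → 1 ≤ (i : ℕ) →
      h.basis.repr c i = 0 := by
    intro n
    induction n using Nat.strong_induction_on with
    | _ n ih =>
      intro i hi hi1
      have h1 := htop n (by omega)
      rw [← h.basis.sum_repr c, Finset.mul_sum, map_sum] at h1
      have h2 : ∀ j : Fin (2 * g + 1), h.top (θ ^ n * (h.basis.repr c j • h.basis j)) =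
          if j = i then h.basis.repr c i else 0 := by
        intro j
        rw [h.basis_apply, mul_smul_comm, map_smul, smul_eq_mul, ← pow_add]
        rcases lt_trichotomy (j : ℕ) (i : ℕ) with hl | hl | hl
        · rw [if_neg (fun hh => by rw [hh] at hl; omega)]
          have h3 : θ ^ (n + (j : ℕ)) = h.basis ⟨n + j, by omega⟩ := by rw [h.basis_apply]
          rw [h3]
          have : h.top (h.basis ⟨n + j, by omega⟩) = 0 := by
            simp only [IsGen.top, Basis.coord_apply, Basis.repr_self]
            rw [Finsupp.single_apply, if_neg]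
            intro hh
            have := congrArg Fin.val hh
            simp at this
            omega
          rw [this, mul_zero]
        · obtain rfl : j = i := Fin.ext hl
          rw [if_pos rfl]
          have h3 : θ ^ (n + (j : ℕ)) = h.basis (Fin.last (2 * g)) := by
            rw [h.basis_apply, Fin.val_last]; congr 1; omega
          rw [h3]
          simp [IsGen.top]
        · have := ih (2 * g - j) (by omega) j (by have := j.2; omega) (by omega)
          rw [this, zero_mul, if_neg (fun hh => by rw [hh] at hl; omega)]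
      rw [Finset.sum_congr rfl fun j _ => h2 j] at h1
      simpa using h1
  have hcK : c = algebraMap K L (h.basis.repr c 0) := by
    conv_lhs => rw [← h.basis.sum_repr c]
    rw [Finset.sum_eq_single (0 : Fin (2 * g + 1))]
    · rw [h.basis_apply, Algebra.smul_def]; simp
    · intro j _ hj
      rw [hcoef (2 * g - j) j (by have := j.2; omega) (by
        have : (j : ℕ) ≠ 0 := fun hh => hj (Fin.ext hh)
        omega), zero_smul]
    · simp
  set γ : K := h.basis.repr c 0 with hγ
  have hc0 : c ≠ 0 := by
    rw [hc]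
    exact div_ne_zero (pow_ne_zero 2 hv0) hα
  have hγ0 : γ ≠ 0 := by
    intro hh
    rw [hh, map_zero] at hcK
    exact hc0 hcK
  have hvα : v ^ 2 = algebraMap K L γ * α := by
    rw [← hcK, hc]; field_simp
  have hNv := congrArg (Algebra.norm K) hvα
  rw [map_mul, map_pow, Algebra.norm_algebraMap, h.rank] at hNv
  obtain ⟨n, hn⟩ := hN
  have hn0 : n ≠ 0 := by
    rintro rfl
    have : Algebra.norm K α = 0 := by rw [hn]; ring
    rw [Algebra.norm_eq_zero_iff] at this
    exact hα this
  -- `γ` is a square
  have hγs : IsSquare γ := by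
    refine ⟨Algebra.norm K v / (n * γ ^ g), ?_⟩
    field_simp
    rw [hNv, hn]
    ring
  obtain ⟨s, hs⟩ := hγs
  have hs0 : s ≠ 0 := by rintro rfl; exact hγ0 (by rw [hs]; ring)
  refine ⟨v / algebraMap K L s, ?_⟩
  have hs1 : algebraMap K L s ≠ 0 := by
    intro hh
    exact hs0 ((algebraMap K L).injective (by rw [hh, map_zero]))
  field_simp
  rw [hvα, hs, map_mul]
  ring

end Pool.Agent.N434.PJ
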