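import Pool.Agent.N352.PJ.Loc

set_option autoImplicit false
set_option linter.all false

open Polynomial Matrix
open scoped Classical

namespace Pool.Agent.N434.PJ

open Module


/-- Extend a linearly independent family to a basis indexed by a sum. -/
theorem exists_ext {k V : Type} [Field k] [AddCommGroup V] [Module k V] [FiniteDimensional k V]
    {d e : ℕ} (hd : finrank k V = d + e) (x : Fin d → V) (hx : LinearIndependent k x) :
    ∃ c : Basis (Fin d ⊕ Fin e) k V, ∀ i, c (Sum.inl i) = x i := by
  classical
  let W := Submodule.span k (Set.range x)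
  obtain ⟨U, hU⟩ := Submodule.exists_isCompl W
  have h1 : finrank k W = d := by
    have := finrank_span_eq_card hx
    simpa using this
  have h2 : finrank k U = e := by
    have := Submodule.finrank_add_eq_of_isCompl hU
    omega
  let bw : Basis (Fin d) k W := Basis.span hx
  let bu : Basis (Fin e) k U := finBasisOfFinrankEq k U h2
  refine ⟨(bw.prod bu).map (Submodule.prodEquivOfIsCompl W U hU), fun i => ?_⟩
  simp [bw]
  exact Basis.coe_span_apply hx i

theorem det_swap {k : Type} [Field k] (d : ℕ) :
    (Matrix.fromBlocks (0 : Matrix (Fin d) (Fin d) k) (1 : Matrix (Fin d) (Fin d) k)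
      (1 : Matrix (Fin d) (Fin d) k) (0 : Matrix (Fin d) (Fin d) k)).det = (-1) ^ d := by
  have h : Matrix.fromBlocks (1 : Matrix (Fin d) (Fin d) k) (1 : Matrix (Fin d) (Fin d) k) 0 (1 : Matrix (Fin d) (Fin d) k) *
      Matrix.fromBlocks (0 : Matrix (Fin d) (Fin d) k) (1 : Matrix (Fin d) (Fin d) k) (1 : Matrix (Fin d) (Fin d) k) 0 =
      Matrix.fromBlocks (1 : Matrix (Fin d) (Fin d) k) (1 : Matrix (Fin d) (Fin d) k) (1 : Matrix (Fin d) (Fin d) k) 0 := by
    rw [Matrix.fromBlocks_multiply]
    simp
  have h2 := congrArg Matrix.det h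
  rw [Matrix.det_mul, Matrix.det_fromBlocks_zero₂₁, Matrix.det_fromBlocks_one₁₁] at h2
  simpa [Matrix.det_neg] using h2

theorem hyp : Pool.Agent.N352.PJ.S_HYP := by
  intro k V ι _ _ _ _ _ b B d x hS _ hc hx h0
  haveI : FiniteDimensional k V := b.finiteDimensional_of_finite
  have hf : finrank k V = d + d := by rw [finrank_eq_card_basis b, hc]; ring
  obtain ⟨c, hcx⟩ := exists_ext hf x hx
  have e : Fin d ⊕ Fin d ≃ ι := by
    apply Fintype.equivOfCardEq
    simp [hc]; ring
  -- determinant in the basis `c`
  have hM : (LinearMap.BilinForm.toMatrix c B).det = (-1) ^ d * ((LinearMap.BilinForm.toMatrix c B).toBlocks₁₂).det ^ 2 := by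
    set M := LinearMap.BilinForm.toMatrix c B with hMd
    have hsym : M.IsSymm := by
      rw [hMd, LinearMap.BilinForm.isSymm_toMatrix_iff_isSymm]
      exact hS
    have h11 : M.toBlocks₁₁ = 0 := by
      ext i j
      simp [hMd, Matrix.toBlocks₁₁, hcx, h0]
    have h21 : M.toBlocks₂₁ = (M.toBlocks₁₂)ᵀ := by
      ext i j
      simp only [Matrix.toBlocks₂₁, Matrix.toBlocks₁₂, Matrix.of_apply, Matrix.transpose_apply]
      exact (hsym.apply _ _).symm
    have hblock : M * Matrix.fromBlocks (0 : Matrix (Fin d) (Fin d) k) 1 1 0 =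
        Matrix.fromBlocks M.toBlocks₁₂ 0 M.toBlocks₂₂ (M.toBlocks₁₂)ᵀ := by
      conv_lhs => rw [← Matrix.fromBlocks_toBlocks M]
      rw [Matrix.fromBlocks_multiply, h11, h21]
      simp
    have h2 := congrArg Matrix.det hblock
    rw [Matrix.det_mul, Matrix.det_fromBlocks_zero₁₂, det_swap, Matrix.det_transpose] at h2
    have h3 : ((-1 : k) ^ d) * (-1) ^ d = 1 := by rw [← mul_pow]; simp
    calc M.det = M.det * (((-1 : k) ^ d) * (-1) ^ d) := by rw [h3, mul_one]
      _ = (-1) ^ d * (M.det * (-1) ^ d) := by ring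
      _ = _ := by rw [h2]; ring
  have hch : (b.toMatrix (c.reindex e))ᵀ * LinearMap.BilinForm.toMatrix b B * b.toMatrix (c.reindex e) =
      LinearMap.BilinForm.toMatrix (c.reindex e) B := LinearMap.BilinForm.toMatrix_mul_basis_toMatrix _ _ _
  have hre : (LinearMap.BilinForm.toMatrix (c.reindex e) B).det = (LinearMap.BilinForm.toMatrix c B).det := by
    have : LinearMap.BilinForm.toMatrix (c.reindex e) B = (LinearMap.BilinForm.toMatrix c B).submatrix e.symm e.symm := by
      ext i j
      simp
    rw [this, Matrix.det_submatrix_equiv_self]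
  have hP : (b.toMatrix (c.reindex e)).det ≠ 0 := by
    have h1 : (b.toMatrix (c.reindex e)) * ((c.reindex e).toMatrix b) = 1 :=
      Basis.toMatrix_mul_toMatrix_flip _ _
    intro h
    have h2 := congrArg Matrix.det h1
    rw [Matrix.det_mul, h] at h2
    simp at h2
  have h4 := congrArg Matrix.det hch
  rw [Matrix.det_mul, Matrix.det_mul, Matrix.det_transpose, hre, hM] at h4
  refine ⟨((LinearMap.BilinForm.toMatrix c B).toBlocks₁₂).det / (b.toMatrix (c.reindex e)).det, ?_⟩
  have h3 : ((-1 : k) ^ d) * (-1) ^ d = 1 := by rw [← mul_pow]; simp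
  change (-1) ^ d * (LinearMap.BilinForm.toMatrix b B).det = _
  field_simp
  calc (-1) ^ d * (LinearMap.BilinForm.toMatrix b B).det * (b.toMatrix (c.reindex e)).det ^ 2
      = (-1) ^ d * ((b.toMatrix (c.reindex e)).det * (LinearMap.BilinForm.toMatrix b B).det *
        (b.toMatrix (c.reindex e)).det) := by ring
    _ = _ := by rw [h4, ← mul_assoc, h3]; ring

/-- `det (1 + A B) = det (1 + B A)` for linear maps. -/
theorem det_comm {k M N : Type} [Field k] [AddCommGroup M] [Module k M] [FiniteDimensional k M]
    [AddCommGroup N] [Module k N] [FiniteDimensional k N] (A : M →ₗ[k] N) (B : N →ₗ[k] M) :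
    LinearMap.det (LinearMap.id + A ∘ₗ B) = LinearMap.det (LinearMap.id + B ∘ₗ A) := by
  classical
  let b := finBasis k M
  let c := finBasis k N
  rw [← LinearMap.det_toMatrix c, ← LinearMap.det_toMatrix b, map_add, map_add,
    LinearMap.toMatrix_comp c b c, LinearMap.toMatrix_comp b c b, LinearMap.toMatrix_id,
    LinearMap.toMatrix_id, Matrix.det_one_add_mul_comm]

theorem norm_single {k ι : Type} [Field k] [Fintype ι] (F : ι → Type) [∀ i, Field (F i)]
    [∀ i, Algebra k (F i)] [∀ i, FiniteDimensional k (F i)] (i : ι) (c : F i) :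
    Algebra.norm k (Pi.mulSingle i c : ∀ i, F i) = Algebra.norm k c := by
  rw [Algebra.norm_apply, Algebra.norm_apply]
  have h1 : (Algebra.lmul k (∀ i, F i)) (Pi.mulSingle i c) = LinearMap.id +
      (LinearMap.single k F i) ∘ₗ (((Algebra.lmul k (F i)) (c - 1)) ∘ₗ (LinearMap.proj i)) := by
    ext1 j
    ext x l
    by_cases h : l = i
    · subst h
      by_cases h' : l = j
      · subst h'
        simp
      · simp [h']
    · simp [h, Pi.mulSingle_eq_of_ne]
  have h2 : (Algebra.lmul k (F i)) c = LinearMap.id +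
      (((Algebra.lmul k (F i)) (c - 1)) ∘ₗ (LinearMap.proj i)) ∘ₗ (LinearMap.single k F i) := by
    ext x
    simp
  rw [h1, h2, det_comm]

theorem norm_pi' {k ι : Type} [Field k] [Fintype ι] (F : ι → Type) [∀ i, Field (F i)]
    [∀ i, Algebra k (F i)] [∀ i, FiniteDimensional k (F i)] (c : ∀ i, F i) :
    Algebra.norm k c = ∏ i, Algebra.norm k (c i) := by
  classical
  conv_lhs => rw [← Finset.univ_prod_mulSingle c]
  rw [map_prod]
  exact Finset.prod_congr rfl fun i _ => norm_single F i (c i)

theorem norm_isSquare {k F : Type} [Field k] [Field F] [Finite k] [Finite F] [Algebra k F]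
    (h2 : (2 : k) ≠ 0) (c : F) (hc : c ≠ 0) : IsSquare (Algebra.norm k c) ↔ IsSquare c := by
  classical
  cases nonempty_fintype k
  cases nonempty_fintype F
  have h2F : (2 : F) ≠ 0 := by
    intro h
    apply h2
    apply (algebraMap k F).injective
    rw [map_ofNat, map_zero]
    exact h
  have hk : ringChar k ≠ 2 := by
    intro h
    apply h2
    have := ringChar.Nat.cast_ringChar (R := k)
    rw [h] at this
    exact_mod_cast this
  have hF : ringChar F ≠ 2 := by
    intro h
    apply h2F
    have := ringChar.Nat.cast_ringChar (R := F)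
    rw [h] at this
    exact_mod_cast this
  have hn : Algebra.norm k c ≠ 0 := by
    rwa [Ne, Algebra.norm_eq_zero_iff]
  rw [FiniteField.isSquare_iff hk hn, FiniteField.isSquare_iff hF hc]
  have key : algebraMap k F (Algebra.norm k c ^ (Fintype.card k / 2)) = c ^ (Fintype.card F / 2) := by
    rw [map_pow, FiniteField.algebraMap_norm_eq_pow, ← pow_mul]
    congr 1
    have hq := FiniteField.odd_card_of_char_ne_two hk
    have hQ := FiniteField.odd_card_of_char_ne_two hF
    rw [Nat.card_eq_fintype_card, Nat.card_eq_fintype_card]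
    have hq1 : 1 < Fintype.card k := Fintype.one_lt_card
    have hdvd : Fintype.card k - 1 ∣ Fintype.card F - 1 := by
      rw [Module.card_eq_pow_finrank (K := k) (V := F)]
      simpa using Nat.sub_one_dvd_pow_sub_one (Fintype.card k) (finrank k F)
    obtain ⟨t, ht⟩ := hdvd
    rw [ht, Nat.mul_div_cancel_left t (by omega)]
    obtain ⟨m, hm⟩ : ∃ m, Fintype.card k = 2 * m + 1 := ⟨Fintype.card k / 2, by omega⟩
    obtain ⟨n, hn⟩ : ∃ n, Fintype.card F = 2 * n + 1 := ⟨Fintype.card F / 2, by omega⟩
    rw [hm, hn] at ht ⊢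
    have e1 : (2 * m + 1) / 2 = m := by omega
    have e2 : (2 * n + 1) / 2 = n := by omega
    rw [e1, e2]
    have : 2 * n = 2 * m * t := by simpa using ht
    nlinarith
  rw [← key]
  constructor
  · intro h; rw [h, map_one]
  · intro h; apply (algebraMap k F).injective; rw [h, map_one]

/-- In a finite field of odd characteristic, a product of nonzero elements is a square iff the number
of nonsquares is even. -/
theorem prod_isSquare {k ι : Type} [Field k] [Finite k] [Fintype ι] (h2 : (2 : k) ≠ 0)
    (x : ι → k) (hx : ∀ i, x i ≠ 0) :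
    IsSquare (∏ i, x i) ↔ Even (Finset.univ.filter fun i => ¬ IsSquare (x i)).card := by
  classical
  cases nonempty_fintype k
  have hk : ringChar k ≠ 2 := by
    intro h
    apply h2
    have := ringChar.Nat.cast_ringChar (R := k)
    rw [h] at this
    exact_mod_cast this
  have hp : (∏ i, x i) ≠ 0 := Finset.prod_ne_zero_iff.2 fun i _ => hx i
  rw [← quadraticChar_one_iff_isSquare hp, map_prod]
  have : ∀ i, quadraticChar k (x i) = if ¬ IsSquare (x i) then -1 else 1 := by
    intro i
    by_cases h : IsSquare (x i)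
    · rw [if_neg (not_not.2 h), quadraticChar_one_iff_isSquare (hx i)]
      exact h
    · rw [if_pos h, quadraticChar_neg_one_iff_not_isSquare]
      exact h
  rw [Finset.prod_congr rfl fun i _ => this i, Finset.prod_ite, Finset.prod_const_one, mul_one,
    Finset.prod_const]
  rw [neg_one_pow_eq_one_iff_even (by norm_num)]
  exact Iff.of_eq (by congr!)

theorem pry : Pool.Agent.N352.PJ.S_PRY := by
  intro k _ _ ι _ F _ _ _ s a b d x y h2 ha hb hdim hs hx hy h0x h0y
  haveI : ∀ i, FiniteDimensional k (F i) := fun i => Module.Finite.of_finite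
  let β := finBasis k (∀ i, F i)
  -- the bilinear form `s (z t)`
  let B : LinearMap.BilinForm k (∀ i, F i) := (LinearMap.mul k (∀ i, F i)).compr₂ s
  have hB : ∀ z t, B z t = s (z * t) := fun z t => rfl
  have hdetB : (LinearMap.BilinForm.toMatrix β B).det ≠ 0 := by
    have hnd : B.Nondegenerate := by
      exact ⟨fun z h => hs z fun t => h t, fun z h => hs z fun t => by
        rw [mul_comm]; exact h t⟩
    exact (LinearMap.BilinForm.nondegenerate_iff_det_ne_zero β).1 hnd
  have key : ∀ (c : ∀ i, F i) (u : Fin d → ∀ i, F i), (∀ i, c i ≠ 0) → LinearIndependent k u →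
      (∀ i j, s (c * u i * u j) = 0) →
      IsSquare ((-1) ^ d * (Algebra.norm k c * (LinearMap.BilinForm.toMatrix β B).det)) := by
    intro c u hc hu h0
    let Bc : LinearMap.BilinForm k (∀ i, F i) := B.compLeft ((Algebra.lmul k (∀ i, F i)) c)
    have hBc : ∀ z t, Bc z t = s (c * z * t) := fun z t => rfl
    have hdet : (LinearMap.BilinForm.toMatrix β Bc).det = Algebra.norm k c * (LinearMap.BilinForm.toMatrix β B).det := by
      rw [LinearMap.BilinForm.toMatrix_compLeft, Matrix.det_mul, Matrix.det_transpose,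
        LinearMap.det_toMatrix, Algebra.norm_apply]
    have hsym : Bc.IsSymm := by
      refine ⟨fun z t => ?_⟩
      simp only [hBc, RingHom.id_apply]
      congr 1
      ring
    have hnd : Bc.Nondegenerate := by
      rw [LinearMap.BilinForm.nondegenerate_iff_det_ne_zero β, hdet]
      refine mul_ne_zero ?_ hdetB
      rw [norm_pi']
      refine Finset.prod_ne_zero_iff.2 fun i _ => ?_
      rw [Ne, Algebra.norm_eq_zero_iff]
      exact hc i
    have := hyp k (∀ i, F i) (Fin (finrank k (∀ i, F i))) β Bc d u hsym hnd (by simpa using hdim) hu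
      (fun i j => by rw [hBc]; exact h0 i j)
    rw [← hdet]
    exact this
  obtain ⟨u, hu⟩ := key a x ha hx h0x
  obtain ⟨v, hv⟩ := key b y hb hy h0y
  have hN : IsSquare (Algebra.norm k (a * b)) := by
    refine ⟨u * v / (LinearMap.BilinForm.toMatrix β B).det, ?_⟩
    rw [map_mul]
    have h3 : ((-1 : k) ^ d) * (-1) ^ d = 1 := by rw [← mul_pow]; simp
    field_simp
    calc Algebra.norm k a * Algebra.norm k b * (LinearMap.BilinForm.toMatrix β B).det ^ 2
        = (((-1 : k) ^ d) * (-1) ^ d) * (Algebra.norm k a * Algebra.norm k b * (LinearMap.BilinForm.toMatrix β B).det ^ 2) := by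
          rw [h3, one_mul]
      _ = ((-1) ^ d * (Algebra.norm k a * (LinearMap.BilinForm.toMatrix β B).det)) *
          ((-1) ^ d * (Algebra.norm k b * (LinearMap.BilinForm.toMatrix β B).det)) := by ring
      _ = _ := by rw [hu, hv]; ring
  rw [norm_pi', prod_isSquare h2 _ (fun i => by
    rw [Ne, Algebra.norm_eq_zero_iff]
    exact mul_ne_zero (ha i) (hb i))] at hN
  have e : (Finset.univ.filter fun i => ¬ IsSquare (Algebra.norm k ((a * b) i))) =
      (Finset.univ.filter fun i => ¬ IsSquare (a i * b i)) := by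
    apply Finset.filter_congr
    intro i _
    exact not_congr (norm_isSquare (k := k) h2 (a i * b i) (mul_ne_zero (ha i) (hb i)))
  rw [e] at hN
  exact hN

end Pool.Agent.N434.PJ
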